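import Pool.Agent.RelA.MAINA
import Pool.Agent.RelA.ALG
import Pool.Agent.RelA.AQ
import Pool.Agent.RelA.EXT
import Pool.Agent.RelA.VAL
import Pool.Agent.RelA.EKEY
import Pool.Agent.RelA.CONFA
import Pool.Agent.RelA.HIDA
import Pool.Agent.RelA.BET
import Pool.Agent.RelA.TIMES
import Pool.Agent.RelA.NULLGEN
import Pool.Agent.RelA.PAIR2
import Pool.Agent.RelG.LV
import Pool.Agent.RelG.ORC
import Pool.Agent.RelG.MEM
import Pool.Agent.RelG.GOOD
import Pool.Agent.RelM.LOC

/-!
# Lutz's questions and algebrizing techniques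
-/

set_option autoImplicit false

namespace Pool.Agent.Results.MP_a0edbc_lc.AlgebrizationBarrier

open Pool.Agent.RelM Pool.Agent.RelA

/-- For every sequence of finite fields: (1) there are an oracle `A` and a low-degree extension `B`
of `A` such that `NP ∩ E` relative to `A` has no null cover computable in polynomial time relative
to `B`, and `NP ∩ E_2` relative to `A` has none computable in time `2 ^ ((log l) ^ O(1))` relative
to `B`; (2) there are an oracle `A` and a low-degree extension `B` of `A` such that `NP` relative to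
`B` has a null cover computable in polynomial time relative to `A`. -/
theorem result : ∀ Φ : Fields,
    (∃ A B : Lang, IsExt Φ A B ∧ ¬ Null1 B (NP A ∩ E1 A) ∧ ¬ Null2 B (NP A ∩ E2 A)) ∧
    (∃ A B : Lang, IsExt Φ A B ∧ Null1 A (NP B)) := by
  intro Φ
  exact ⟨main1_of (ext_isExt dlst) (confa (ekey alg aqinj RelG.lvfacts))
      (rulea (val_cut RelG.odiff RelG.owq) aqlen RelG.lvfacts) (bet stay) time1 time2 (RelG.npg RelG.owq)
      (RelG.e1g RelG.osq0 RelG.osq1) (RelG.e2g RelG.osq0 RelG.osq1) Φ,
    main2_of (ext_isExt dlst) nullgen (v2loc aqlen) v2thin RelG.good RelG.ott Φ⟩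

end Pool.Agent.Results.MP_a0edbc_lc.AlgebrizationBarrier
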