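import Pool.Agent.RelV.MAIN
import Pool.Agent.RelV.MHIT
import Pool.Agent.RelV.LOW
import Pool.Agent.RelV.NONNULL
import Pool.Agent.RelV.NONNULLD
import Pool.Agent.RelV.FAIR
import Pool.Agent.RelV.FAST
import Pool.Agent.RelV.CNT
import Pool.Agent.RelW.MAIN
import Pool.Agent.RelW.ODD

/-!
# Oracles relative to which `NP` has given dimensions in `E` and in `E_2`: all pairs
-/

set_option autoImplicit false

namespace Pool.Agent.Results.MP_a0edbc_lc.DimensionAllPairs

open Pool.Agent.RelM (Lang NP E1 E2 Null2)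
open Pool.Agent.RelO (GaleNull1 GaleNull2)

/-- For all real numbers `a`, `b` in `[0,1]` there is an oracle `O` relative to which the
resource-bounded dimension of `NP` in `E` is `a` and the one of `NP` in `E_2` is `b`: for `s > a`
there is a null cover of `NP ∩ E` by `s`-supergales computable in polynomial time, for `s < a`
there is none; for `s > b` there is a null cover of `NP` by `s`-supergales computable in time
`2 ^ ((log l) ^ O(1))`, for `s < b` there is no such null cover of `NP ∩ E_2`. If `a ≤ b` then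
moreover for `s > b` there is even a null cover of `NP` by `s`-supergales computable in polynomial
time, and if `a ≤ b = 1` then there is no null cover of `NP ∩ E_2` computable in time
`2 ^ ((log l) ^ O(1))` at all. -/
theorem result (a b : ℝ) (ha0 : 0 ≤ a) (ha1 : a ≤ 1) (hb0 : 0 ≤ b) (hb1 : b ≤ 1) : ∃ O : Lang,
    (∀ s : ℝ, a < s → GaleNull1 s O (NP O ∩ E1 O)) ∧
    (∀ s : ℝ, s < a → ¬ GaleNull1 s O (NP O ∩ E1 O)) ∧
    (∀ s : ℝ, b < s → GaleNull2 s O (NP O)) ∧
    (∀ s : ℝ, s < b → ¬ GaleNull2 s O (NP O ∩ E2 O)) ∧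
    (a ≤ b → (∀ s : ℝ, b < s → GaleNull1 s O (NP O)) ∧
      (b = 1 → ¬ Null2 O (NP O ∩ E2 O))) := by
  rcases le_or_gt a b with hab | hab
  · have hH : Pool.Agent.RelV.T_HIT := Pool.Agent.RelV.hit Pool.Agent.RelV.bloc
    have hN : Pool.Agent.RelV.T_NONNULL :=
      Pool.Agent.RelV.nonnull Pool.Agent.RelV.bloc Pool.Agent.RelV.cnt
    have hD : Pool.Agent.RelV.T_NONNULLD := Pool.Agent.RelV.nonnulld_of hH Pool.Agent.RelV.fair
    obtain ⟨O, h1, h2, h3, h4, h5⟩ := Pool.Agent.RelV.main_of Pool.Agent.RelV.mhit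
      (Pool.Agent.RelV.low_of hN hD Pool.Agent.RelV.fast1 Pool.Agent.RelV.fast2) a b ha0 hab hb1
    exact ⟨O, h1, h2, fun t ht => (h3 t ht).2, h4, fun _ => ⟨fun t ht => (h3 t ht).1, h5⟩⟩
  · obtain ⟨O, h1, h2, h3, h4⟩ :=
      Pool.Agent.RelW.main_of (Pool.Agent.RelW.nonnullo Pool.Agent.RelW.bloc) a b ha0 ha1 hb0 hb1
    exact ⟨O, h1, h2, h3, h4, fun h => absurd hab (not_lt.2 h)⟩

end Pool.Agent.Results.MP_a0edbc_lc.DimensionAllPairs
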