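import Pool.Agent.RelV.MAIN
import Pool.Agent.RelV.MHIT
import Pool.Agent.RelV.LOW
import Pool.Agent.RelV.NONNULL
import Pool.Agent.RelV.NONNULLD
import Pool.Agent.RelV.FAIR
import Pool.Agent.RelV.FAST
import Pool.Agent.RelV.CNT

/-!
# Oracles relative to which `NP` has given dimensions in `E` and in `E_2`
-/

set_option autoImplicit false

namespace Pool.Agent.Results.MP_a0edbc_lc.DimensionPairs

open Pool.Agent.RelM (Lang NP E1 E2 Null2)
open Pool.Agent.RelO (GaleNull1 GaleNull2)
open Pool.Agent.RelV

/-- For all real numbers `0 ≤ a ≤ b ≤ 1` there is an oracle `O` relative to which the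
resource-bounded dimension of `NP` in `E` is `a` and the one of `NP` in `E_2` is `b`: for `s > a`
there is a null cover of `NP ∩ E` by `s`-supergales computable in polynomial time, for `s < a`
there is none; for `s > b` there are null covers of `NP` by `s`-supergales computable in
polynomial time (and so in time `2 ^ ((log l) ^ O(1))`), for `s < b` there is no null cover of
`NP ∩ E_2` by `s`-supergales computable in time `2 ^ ((log l) ^ O(1))`; if `b = 1` then there is
no null cover of `NP ∩ E_2` computable in time `2 ^ ((log l) ^ O(1))` at all. -/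
theorem result (a b : ℝ) (h0 : 0 ≤ a) (hab : a ≤ b) (h1 : b ≤ 1) : ∃ O : Lang,
    (∀ s : ℝ, a < s → GaleNull1 s O (NP O ∩ E1 O)) ∧
    (∀ s : ℝ, s < a → ¬ GaleNull1 s O (NP O ∩ E1 O)) ∧
    (∀ s : ℝ, b < s → GaleNull1 s O (NP O) ∧ GaleNull2 s O (NP O)) ∧
    (∀ s : ℝ, s < b → ¬ GaleNull2 s O (NP O ∩ E2 O)) ∧
    (b = 1 → ¬ Null2 O (NP O ∩ E2 O)) := by
  have hH : T_HIT := hit bloc
  have hN : T_NONNULL := nonnull bloc cnt
  have hD : T_NONNULLD := nonnulld_of hH fair
  exact main_of mhit (low_of hN hD fast1 fast2) a b h0 hab h1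

end Pool.Agent.Results.MP_a0edbc_lc.DimensionPairs
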