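import Pool.Agent.RelT.MAINT
import Pool.Agent.RelT.ONE
import Pool.Agent.RelT.NONNULL

/-!
# Oracles relative to which `NP` has measure zero and any given dimension in `E`
-/

set_option autoImplicit false

namespace Pool.Agent.Results.MP_a0edbc_lc.DimensionSpectrum

open Pool.Agent.RelM (Lang NP E1 E2 Null1 Null2)
open Pool.Agent.RelO (GaleNull1 GaleNull2)

/-- For every real number `a` between `0` and `1` there is an oracle `O` relative to which `NP`
has a null cover that is computable in polynomial time (and so also one that is computable in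
time `2 ^ ((log l) ^ O(1))`) and the resource-bounded dimension of `NP` in `E` and in `E_2` is
`a`: for every `s > a` there are such null covers of `NP` by `s`-supergales, and for every `s < a`
there is no such null cover of `NP ∩ E` or of `NP ∩ E_2` by `s`-supergales. -/
theorem result (a : ℝ) (h0 : 0 ≤ a) (h1 : a ≤ 1) : ∃ O : Lang,
    Null1 O (NP O) ∧ Null2 O (NP O) ∧
    (∀ s : ℝ, a < s → GaleNull1 s O (NP O) ∧ GaleNull2 s O (NP O)) ∧
    (∀ s : ℝ, s < a → ¬ GaleNull1 s O (NP O ∩ E1 O) ∧ ¬ GaleNull2 s O (NP O ∩ E2 O)) :=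
  Pool.Agent.RelT.second_of (Pool.Agent.RelT.nonnull Pool.Agent.RelT.bloc)
    Pool.Agent.RelT.dim_one a h0 h1

end Pool.Agent.Results.MP_a0edbc_lc.DimensionSpectrum
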