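import Pool.Agent.RelG.MAIN
import Pool.Agent.RelG.LV
import Pool.Agent.RelG.ORC
import Pool.Agent.RelG.KEY
import Pool.Agent.RelG.CONF
import Pool.Agent.RelG.HID
import Pool.Agent.RelG.GEN
import Pool.Agent.RelG.MEM
import Pool.Agent.RelG.THIN
import Pool.Agent.RelG.GOOD
import Pool.Agent.RelG.HFIX
import Pool.Agent.RelM.LOC
import Pool.Agent.RelM.READ
import Pool.Agent.RelM.DSTAR

/-!
# An oracle relative to which `NP` is small although it contains generic languages
-/

set_option autoImplicit false

namespace Pool.Agent.Results.MP_a0edbc_lc.GenericNull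

open Pool.Agent.RelM Pool.Agent.RelG

/-- There is an oracle `O` relative to which `NP` has a null cover computable in polynomial time,
although for every `c` the class `NP ∩ E` contains an `(l + 2) ^ c`-generic language and the class
`NP ∩ E_2` contains a `2 ^ ((log l + 2) ^ c)`-generic language. -/
theorem result : ∃ O : Lang, Null1 O (NP O) ∧
    (∀ c : ℕ, ∃ A ∈ NP O ∩ E1 O, Generic O (fun l => (l + 2) ^ c) A) ∧
    (∀ c : ℕ, ∃ A ∈ NP O ∩ E2 O, Generic O (fun l => 2 ^ ((Nat.log 2 l + 2) ^ c)) A) :=
  RelG.main_of (conf lvfacts (key lvfacts)) (rule lvfacts odiff) gen bud (npg RelG.owq)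
    (e1g RelG.osq0 RelG.osq1) (e2g RelG.osq0 RelG.osq1) (thin lvfacts) RelG.good (RelG.hfix RelG.oloc)
    RelG.bits (RelG.numsize) RelG.ott (read stay) ddens dlam dcov dapp prr

end Pool.Agent.Results.MP_a0edbc_lc.GenericNull
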