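import Pool.Agent.RelM.MAIN
import Pool.Agent.RelM.LOC
import Pool.Agent.RelM.QRY
import Pool.Agent.RelM.PROB
import Pool.Agent.RelM.NPR
import Pool.Agent.RelM.E2R
import Pool.Agent.RelM.READ
import Pool.Agent.RelM.HIT
import Pool.Agent.RelM.ALPHA
import Pool.Agent.RelM.BETA
import Pool.Agent.RelM.CROSS
import Pool.Agent.RelM.NONNULL
import Pool.Agent.RelM.DSTAR
import Pool.Agent.RelM.SHORT
import Pool.Agent.RelM.VCARD
import Pool.Agent.RelM.HFIX

/-!
# An oracle relative to which `NP` is small in `E` and not small in `E_2`
-/

set_option autoImplicit false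

namespace Pool.Agent.Results.MP_a0edbc_lc.OracleSeparation

open Pool.Agent.RelM

/-- There is an oracle `O` relative to which `NP ∩ E` has a null cover computable in polynomial
time, and `NP ∩ E_2` has no null cover computable in time `l ^ ((log l) ^ O(1))`. -/
theorem result : ∃ O : Lang, Null1 O (NP O ∩ E1 O) ∧ ¬ Null2 O (NP O ∩ E2 O) := by
  have hHIT : T_HIT := hit loc len one ovis ocut oloc mixp fd wit_le shortfin
  have hA : T_ALPHA := alpha hHIT
  have hB : T_BETA := beta hA loc len oloc mixp fd shortfin
  have hN : T_NONNULL := nonnull hHIT cross flip_mp fd ovis oloc loc len strlen strinj shortfin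
  exact main_of hB hN (npr stay) (e2r stay) (read stay) ddens dlam dcov dapp prr (vthin shortfin)
    (good shortcard) (hfix (bloc loc len oloc strlen)) bits (numsize prr) ott strlen

end Pool.Agent.Results.MP_a0edbc_lc.OracleSeparation
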